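import Pool.Agent.Q73.CM.Rev
import Pool.Agent.Q73.CM.Discs

/-!
# Chordal polynomial approximation on discs accumulating at a point

Let `D_n = closedBall (c n) (r n)` be pairwise disjoint closed discs of positive radius converging to
a point `P`, and `L = {P} ∪ ⋃ D_n`.  Then `L` is compact, `Lᶜ` is connected, and the `χ`-uniform
limits on `L` of polynomials are exactly the functions of the class `F(L)`.

The approximation is the general theorem of `Pool.Agent.Q73.CM` (Mergelyan's theorem for the chordal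
metric, problem MP_215127_an); here it is applied to `L`, whose complement is shown to be connected
by gluing logarithms of `z - q`.
-/

set_option autoImplicit false

open Filter Topology Set Metric

namespace Pool.Agent.Results.MP_1b82cc_an.ChordalDiscs

/-- the chordal metric `χ` on the Riemann sphere `ℂ ∪ {∞} = OnePoint ℂ` -/
noncomputable def chord : OnePoint ℂ → OnePoint ℂ → ℝ
  | OnePoint.infty, OnePoint.infty => 0
  | OnePoint.infty, OnePoint.some b => 1 / √(1 + ‖b‖ ^ 2)
  | OnePoint.some a, OnePoint.infty => 1 / √(1 + ‖a‖ ^ 2)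
  | OnePoint.some a, OnePoint.some b => ‖a - b‖ / (√(1 + ‖a‖ ^ 2) * √(1 + ‖b‖ ^ 2))

/-- `f` is a `χ`-uniform limit on `L` of a sequence of polynomials -/
def IsLimit (L : Set ℂ) (f : ℂ → OnePoint ℂ) : Prop :=
  ∃ p : ℕ → Polynomial ℂ, ∀ ε : ℝ, 0 < ε → ∃ N : ℕ, ∀ n ≥ N, ∀ z ∈ L,
    chord (((p n).eval z : ℂ) : OnePoint ℂ) (f z) < ε

/-- the class `F(L)` (only the values of `f` on `L` matter) -/
structure InF (L : Set ℂ) (f : ℂ → OnePoint ℂ) : Prop where
  cont : ContinuousOn f L
  comp : ∀ z ∈ interior L,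
    (∀ w ∈ connectedComponentIn (interior L) z, f w = OnePoint.infty) ∨
    (∃ g : ℂ → ℂ, DifferentiableOn ℂ g (connectedComponentIn (interior L) z) ∧
      ∀ w ∈ connectedComponentIn (interior L) z, f w = (g w : OnePoint ℂ))

/-- the chordal Mergelyan property -/
def ChordalMergelyan (L : Set ℂ) : Prop := ∀ f : ℂ → OnePoint ℂ, IsLimit L f ↔ InF L f

lemma chord_eq (x y : OnePoint ℂ) : chord x y = Q73.CM.chord x y := by
  induction x using OnePoint.rec with
  | infty =>
    induction y using OnePoint.rec with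
    | infty => rfl
    | coe b => rfl
  | coe a =>
    induction y using OnePoint.rec with
    | infty => rfl
    | coe b => rfl

/-- **The chordal Mergelyan property for discs accumulating at a point.** -/
theorem result : ∀ (c : ℕ → ℂ) (r : ℕ → ℝ) (P : ℂ), (∀ n, 0 < r n) →
    (∀ m n, m ≠ n → Disjoint (closedBall (c m) (r m)) (closedBall (c n) (r n))) →
    (∀ ε : ℝ, 0 < ε → ∃ N : ℕ, ∀ n ≥ N, ∀ z ∈ closedBall (c n) (r n), dist z P < ε) →
    ChordalMergelyan ({P} ∪ ⋃ n, closedBall (c n) (r n)) := by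
  intro c r P hr hd hP f
  have hL : ({P} ∪ ⋃ n, closedBall (c n) (r n)) = Q73.CM.tl c r P 0 := by
    ext z
    simp [Q73.CM.tl]
  rw [hL]
  have h := Q73.CM.main (Q73.CM.tl_compact hP) (Q73.CM.tl_conn hr hd hP) f
  constructor
  · rintro ⟨p, hp⟩
    obtain ⟨h1, h2⟩ := h.1 ⟨p, fun ε hε => by
      obtain ⟨N, hN⟩ := hp ε hε
      exact ⟨N, fun n hn z hz => by rw [← chord_eq]; exact hN n hn z hz⟩⟩
    exact ⟨h1, h2⟩
  · rintro ⟨h1, h2⟩
    obtain ⟨p, hp⟩ := h.2 ⟨h1, h2⟩
    refine ⟨p, fun ε hε => ?_⟩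
    obtain ⟨N, hN⟩ := hp ε hε
    exact ⟨N, fun n hn z hz => by rw [chord_eq]; exact hN n hn z hz⟩

end Pool.Agent.Results.MP_1b82cc_an.ChordalDiscs
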